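import Pool.Agent.W300.FT.Stm

set_option autoImplicit false

namespace Pool.Agent.W892.FT
open MeasureTheory ProbabilityTheory
open Pool.Agent.W300.FT

noncomputable section

variable {V : Type}

lemma mA (e : V × K) : Measurable (fun ω : V × K → Bool => (ω e = true : Prop)) := by
  apply measurableSet_setOf.1
  have h : Measurable (fun ω : V × K → Bool => ω e) := measurable_pi_apply e
  exact h (measurableSet_singleton true)

lemma mEt [Countable V] (G : SimpleGraph V) (c : ℕ × ℕ) (j : ℕ) (v : V) :
    Measurable (fun ω : V × K → Bool => et G ω c j v) := by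
  unfold et ExistsUnique
  refine Measurable.exists fun u => ?_
  refine Measurable.and (Measurable.and measurable_const (mA _)) ?_
  refine Measurable.forall fun u' => ?_
  exact Measurable.imp (Measurable.and measurable_const (mA _)) measurable_const

lemma mMt [Countable V] (G : SimpleGraph V) (c : ℕ × ℕ) (j : ℕ) (u v : V) :
    Measurable (fun ω : V × K → Bool => mt G ω c j u v) := by
  unfold Pool.Agent.W300.FT.mt
  exact Measurable.and measurable_const (Measurable.and (mA _) (Measurable.and (mA _)
    (Measurable.and (mEt _ _ _ _) (mEt _ _ _ _))))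

lemma mCh [Countable V] (G : SimpleGraph V) (c : ℕ × ℕ) (γ : ℕ → V) :
    Measurable (fun ω : V × K → Bool => Ch G ω c γ) := by
  unfold Ch
  refine Measurable.forall fun j => ?_
  exact Measurable.imp measurable_const (mMt _ _ _ _ _)

/-- extension of a finite walk -/
def ex (n : ℕ) (g : Fin (n + 3) → V) : ℕ → V :=
  fun j => if h : j < n + 3 then g ⟨j, h⟩ else g 0

lemma mEx [Countable V] (n : ℕ) (P : (V × K → Bool) → (ℕ → V) → Prop)
    (h1 : ∀ ω γ γ', (∀ j ≤ n + 2, γ j = γ' j) → P ω γ → P ω γ')
    (h2 : ∀ γ, Measurable (fun ω => P ω γ)) : Measurable (fun ω => ∃ γ, P ω γ) := by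
  have h : (fun ω => ∃ γ, P ω γ) = fun ω => ∃ g : Fin (n + 3) → V, P ω (ex n g) := by
    funext ω
    apply propext
    constructor
    · rintro ⟨γ, hγ⟩
      refine ⟨fun i => γ i, h1 ω γ _ ?_ hγ⟩
      intro j hj
      have hj' : j < n + 3 := by omega
      simp [ex, hj']
    · rintro ⟨g, hg⟩
      exact ⟨_, hg⟩
  rw [h]
  exact Measurable.exists fun g => h2 _

lemma ch_congr (G : SimpleGraph V) (ω : V × K → Bool) (c : ℕ × ℕ) (γ γ' : ℕ → V)
    (h : ∀ j ≤ c.1 + 2, γ j = γ' j) (hc : Ch G ω c γ) : Ch G ω c γ' := by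
  intro j hj
  have := hc j hj
  rwa [h j (by omega), h (j + 1) (by omega)] at this

lemma fm_congr (ω : V × K → Bool) (c : ℕ × ℕ) (i : ℕ) (γ γ' : ℕ → V)
    (h : ∀ j ≤ c.1 + 2, γ j = γ' j) : fm ω c i γ = fm ω c i γ' := by
  unfold fm
  rw [h 0 (by omega), h (c.1 + 2) (by omega)]
  congr 1
  apply Finset.sum_congr rfl
  intro j hj
  rw [Finset.mem_Ioo] at hj
  rw [h j (by omega)]

lemma mFm (c : ℕ × ℕ) (i : ℕ) (γ : ℕ → V) :
    Measurable (fun ω : V × K → Bool => (fm ω c i γ = 1 : Prop)) := by
  let _ : MeasurableSpace (ZMod 2) := ⊤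
  have : DiscreteMeasurableSpace (ZMod 2) := ⟨fun _ => trivial⟩
  have hb : ∀ e : V × K, Measurable (fun ω : V × K → Bool => bt (ω e)) := by
    intro e
    exact (measurable_of_countable bt).comp (measurable_pi_apply e)
  have hmul : ∀ f g : (V × K → Bool) → ZMod 2, Measurable f → Measurable g →
      Measurable (fun ω => f ω * g ω) := by
    intro f g hf hg
    exact (measurable_of_countable (fun p : ZMod 2 × ZMod 2 => p.1 * p.2)).comp (hf.prodMk hg)
  have hadd : ∀ f g : (V × K → Bool) → ZMod 2, Measurable f → Measurable g →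
      Measurable (fun ω => f ω + g ω) := by
    intro f g hf hg
    exact (measurable_of_countable (fun p : ZMod 2 × ZMod 2 => p.1 + p.2)).comp (hf.prodMk hg)
  have hsum : ∀ (S : Finset ℕ), Measurable
      (fun ω : V × K → Bool => ∑ j ∈ S, bt (ω (γ j, (c, j, i)))) := by
    intro S
    classical
    induction S using Finset.induction_on with
    | empty => simp only [Finset.sum_empty]; exact measurable_const
    | insert a s ha ih =>
      simp only [Finset.sum_insert ha]
      exact hadd _ _ (hb _) ih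
  have hfm : Measurable (fun ω : V × K → Bool => fm ω c i γ) := by
    unfold fm
    exact hadd _ _ (hmul _ _ (hb _) (hb _)) (hsum _)
  apply measurableSet_setOf.1
  exact hfm (MeasurableSet.of_discrete (s := ({1} : Set (ZMod 2))))

lemma mDec (P : (V × K → Bool) → Prop) (h : Measurable P) (inst : ∀ ω, Decidable (P ω)) :
    Measurable (fun ω => @decide (P ω) (inst ω)) := by
  apply measurable_to_bool
  have : (fun ω => @decide (P ω) (inst ω)) ⁻¹' {true} = {ω | P ω} := by
    ext ω
    simp
  rw [this]
  exact measurableSet_setOf.2 h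

theorem meas : S_MEAS := by
  intro V G C hV
  have hval : ∀ (v : V) (k : K), Measurable (fun ω : V × K → Bool =>
      ∃ γ : ℕ → V, γ 1 = v ∧ Ch G ω k.1 γ ∧ fm ω k.1 k.2.2 γ = 1) := by
    intro v k
    refine mEx k.1.1 _ ?_ ?_
    · rintro ω γ γ' h ⟨h1, h2, h3⟩
      exact ⟨by rw [← h 1 (by omega)]; exact h1, ch_congr G ω k.1 γ γ' h h2, by
        rw [← fm_congr ω k.1 k.2.2 γ γ' h]; exact h3⟩
    · intro γ
      exact Measurable.and measurable_const (Measurable.and (mCh _ _ _) (mFm _ _ _))
  have hex1 : ∀ (v : V) (k : K), Measurable (fun ω : V × K → Bool =>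
      ∃ γ : ℕ → V, γ 1 = v ∧ Ch G ω k.1 γ) := by
    intro v k
    refine mEx k.1.1 _ ?_ ?_
    · rintro ω γ γ' h ⟨h1, h2⟩
      exact ⟨by rw [← h 1 (by omega)]; exact h1, ch_congr G ω k.1 γ γ' h h2⟩
    · intro γ
      exact Measurable.and measurable_const (mCh _ _ _)
  have hex2 : ∀ (v : V) (k : K), Measurable (fun ω : V × K → Bool =>
      ∃ γ : ℕ → V, γ 1 = v ∧ Ch G ω k.1 γ ∧ ∀ j ∈ Finset.Ioo 0 (k.1.1 + 2), γ j ∈ C) := by
    intro v k
    refine mEx k.1.1 _ ?_ ?_
    · rintro ω γ γ' h ⟨h1, h2, h3⟩
      refine ⟨by rw [← h 1 (by omega)]; exact h1, ch_congr G ω k.1 γ γ' h h2, ?_⟩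
      intro j hj
      have hj' := Finset.mem_Ioo.1 hj
      rw [← h j (by omega)]
      exact h3 j hj
    · intro γ
      exact Measurable.and measurable_const (Measurable.and (mCh _ _ _) measurable_const)
  constructor
  · refine measurable_pi_iff.2 fun v => measurable_pi_iff.2 fun k => ?_
    unfold Psi
    refine Measurable.ite (MeasurableSet.const _) (measurable_pi_apply _) ?_
    refine Measurable.ite (MeasurableSet.const _) (mDec _ (mEt _ _ _ _) _) ?_
    refine Measurable.ite (measurableSet_setOf.2 (Measurable.and measurable_const (hex1 v k)))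
      (mDec _ (hval v k) _) (measurable_pi_apply _)
  · refine measurable_pi_iff.2 fun v => measurable_pi_iff.2 fun k => ?_
    unfold PsiC
    refine Measurable.ite (MeasurableSet.const _) (measurable_pi_apply _) ?_
    refine Measurable.ite (MeasurableSet.const _) (mDec _ (mEt _ _ _ _) _) ?_
    refine Measurable.ite (measurableSet_setOf.2 (Measurable.and measurable_const (hex2 v k)))
      (mDec _ (hval v k) _) (measurable_pi_apply _)

end

end Pool.Agent.W892.FT
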